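import Mathlib

set_option autoImplicit false

open Finset
open scoped InnerProductSpace ENNReal

namespace Pool.Agent.Ebd05c

/-- weighted reindexing operators on `ℓ²` -/
lemma exists_op {ι E : Type*} [NormedAddCommGroup E] [NormedSpace ℂ E] (σ : ι → ι) (hσ : Function.Injective σ)
    (A : ι → E →L[ℂ] E) (M : ℝ) (hM : 0 ≤ M) (hA : ∀ i, ‖A i‖ ≤ M) :
    ∃ V : lp (fun _ : ι => E) 2 →L[ℂ] lp (fun _ : ι => E) 2, (∀ x i, V x i = A i (x (σ i))) ∧ ‖V‖ ≤ M := by
  have h2 : (0 : ℝ) < (2 : ℝ≥0∞).toReal := by simp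
  have hb : ∀ (x : lp (fun _ : ι => E) 2) (i : ι), ‖A i (x (σ i))‖ ^ (2 : ℝ≥0∞).toReal ≤
      M ^ (2 : ℝ≥0∞).toReal * ‖x (σ i)‖ ^ (2 : ℝ≥0∞).toReal := by
    intro x i
    rw [← Real.mul_rpow hM (norm_nonneg _)]
    refine Real.rpow_le_rpow (norm_nonneg _) ?_ h2.le
    exact ((A i).le_opNorm _).trans (mul_le_mul_of_nonneg_right (hA i) (norm_nonneg _))
  have hs0 : ∀ x : lp (fun _ : ι => E) 2, Summable fun i => ‖x (σ i)‖ ^ (2 : ℝ≥0∞).toReal := fun x =>
    ((lp.memℓp x).summable h2).comp_injective hσ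
  have hs : ∀ x : lp (fun _ : ι => E) 2, Summable fun i => ‖A i (x (σ i))‖ ^ (2 : ℝ≥0∞).toReal := fun x =>
    Summable.of_nonneg_of_le (fun i => Real.rpow_nonneg (norm_nonneg _) _) (hb x) ((hs0 x).mul_left _)
  let L : lp (fun _ : ι => E) 2 →ₗ[ℂ] lp (fun _ : ι => E) 2 :=
    { toFun := fun x => ⟨fun i => A i (x (σ i)), memℓp_gen (hs x)⟩
      map_add' := fun x y => by
        ext i
        exact map_add (A i) _ _
      map_smul' := fun c x => by
        ext i
        simp }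
  have hL : ∀ x i, L x i = A i (x (σ i)) := fun x i => rfl
  have hnorm : ∀ x, ‖L x‖ ≤ M * ‖x‖ := by
    intro x
    refine lp.norm_le_of_tsum_le h2 (by positivity) ?_
    rw [Real.mul_rpow hM (norm_nonneg _), lp.norm_rpow_eq_tsum h2]
    calc ∑' i, ‖L x i‖ ^ (2 : ℝ≥0∞).toReal ≤ ∑' i, M ^ (2 : ℝ≥0∞).toReal * ‖x (σ i)‖ ^ (2 : ℝ≥0∞).toReal :=
          (hs x).tsum_le_tsum (hb x) ((hs0 x).mul_left _)
      _ = M ^ (2 : ℝ≥0∞).toReal * ∑' i, ‖x (σ i)‖ ^ (2 : ℝ≥0∞).toReal := tsum_mul_left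
      _ ≤ M ^ (2 : ℝ≥0∞).toReal * ∑' i, ‖x i‖ ^ (2 : ℝ≥0∞).toReal := by
          refine mul_le_mul_of_nonneg_left ?_ (Real.rpow_nonneg hM _)
          exact tsum_comp_le_tsum_of_inj ((lp.memℓp x).summable h2)
            (fun i => Real.rpow_nonneg (norm_nonneg _) _) hσ
  exact ⟨L.mkContinuous M hnorm, fun x i => rfl, L.mkContinuous_norm_le hM hnorm⟩

/-- the row space -/
noncomputable abbrev KK : Type := lp (fun _ : Bool × ℤ => ℂ) 2

/-- weights -/
noncomputable def rho (ε : ℝ) : Bool → ℤ → ℝ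
  | true, i => if i < 0 then 1 else ε
  | false, i => if i < 0 then ε else 1

lemma rho_pos {ε : ℝ} (hε : 0 < ε) (b : Bool) (i : ℤ) : 0 < rho ε b i := by
  cases b <;> simp only [rho] <;> split_ifs <;> linarith

lemma rho_le {ε : ℝ} (hε1 : ε ≤ 1) (b : Bool) (i : ℤ) : rho ε b i ≤ 1 := by
  cases b <;> simp only [rho] <;> split_ifs <;> linarith

lemma le_rho {ε : ℝ} (hε1 : ε ≤ 1) (b : Bool) (i : ℤ) : ε ≤ rho ε b i := by
  cases b <;> simp only [rho] <;> split_ifs <;> linarith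

lemma rho_true_anti {ε : ℝ} (hε1 : ε ≤ 1) {i j : ℤ} (h : i ≤ j) : rho ε true j ≤ rho ε true i := by
  simp only [rho]
  split_ifs <;> linarith

lemma rho_false_mono {ε : ℝ} (hε1 : ε ≤ 1) {i j : ℤ} (h : i ≤ j) : rho ε false i ≤ rho ε false j := by
  simp only [rho]
  split_ifs <;> linarith

/-- counting -/
def NN (n k : ℕ) (l : ℤ) : ℕ := ((range n).filter (fun s : ℕ => 0 ≤ l + s ∧ l + s < 4 ^ k)).card

lemma NN_le (n k : ℕ) (l : ℤ) : NN n k l ≤ n := by
  unfold NN
  exact (card_filter_le _ _).trans (by simp)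

lemma NN_le' (n k : ℕ) (l : ℤ) : NN n k l ≤ 4 ^ k := by
  unfold NN
  have : ((range n).filter (fun s : ℕ => 0 ≤ l + s ∧ l + s < 4 ^ k)).card ≤ (range (4 ^ k)).card := by
    refine card_le_card_of_injOn (fun s : ℕ => (l + s).toNat) ?_ ?_
    · intro s hs
      have hs' := (mem_filter.mp (mem_coe.mp hs)).2
      simp only [coe_range, Set.mem_Iio]
      have h1 : ((l + s).toNat : ℤ) = l + s := Int.toNat_of_nonneg hs'.1
      have h2 : ((l + s).toNat : ℤ) < ((4 ^ k : ℕ) : ℤ) := by rw [h1]; push_cast; exact hs'.2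
      exact_mod_cast h2
    · intro s hs t ht hst
      have hs' := (mem_filter.mp (mem_coe.mp hs)).2
      have ht' := (mem_filter.mp (mem_coe.mp ht)).2
      have h1 : ((l + s).toNat : ℤ) = l + s := Int.toNat_of_nonneg hs'.1
      have h2 : ((l + t).toNat : ℤ) = l + t := Int.toNat_of_nonneg ht'.1
      have h3 : ((l + s).toNat : ℤ) = ((l + t).toNat : ℤ) := by
        have : (l + s).toNat = (l + t).toNat := hst
        rw [this]
      omega
  simpa using this

lemma NN_pos {n k : ℕ} {l : ℤ} (h : NN n k l ≠ 0) : ∃ s : ℕ, s < n ∧ 0 ≤ l + s ∧ l + s < 4 ^ k := by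
  unfold NN at h
  obtain ⟨s, hs⟩ := card_pos.mp (Nat.pos_of_ne_zero h)
  rw [mem_filter, mem_range] at hs
  exact ⟨s, hs.1, hs.2⟩

lemma NN_succ (n k : ℕ) (l : ℤ) :
    (NN (n + 1) k l : ℝ) = NN n k (l + 1) + (if 0 ≤ l ∧ l < 4 ^ k then 1 else 0) := by
  unfold NN
  rw [card_filter, card_filter, sum_range_succ']
  push_cast
  congr 1
  · refine sum_congr rfl fun s _ => ?_
    have e : l + ((s : ℤ) + 1) = l + 1 + s := by ring
    rw [e]
  · simp

/-- coefficients of the powers -/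
noncomputable def Om (ε : ℝ) (n k : ℕ) (l : ℤ) : ℝ :=
  ε * rho ε false l / rho ε true (4 ^ k - n - l) * NN n k l

lemma Om_zero (ε : ℝ) (k : ℕ) (l : ℤ) : Om ε 0 k l = 0 := by
  simp [Om, NN]

lemma Om_succ {ε : ℝ} (hε : 0 < ε) (n k : ℕ) (l : ℤ) :
    Om ε (n + 1) k l = rho ε false l / rho ε false (l + 1) * Om ε n k (l + 1) +
      (if 0 ≤ l ∧ l < 4 ^ k then rho ε true (4 ^ k - 1 - l) / rho ε true (4 ^ k - 1 - l - n) else 0) := by
  unfold Om
  rw [NN_succ]
  have e1 : (4 ^ k - ((n + 1 : ℕ) : ℤ) - l) = 4 ^ k - 1 - l - n := by push_cast; ring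
  have e2 : (4 ^ k - (n : ℤ) - (l + 1)) = 4 ^ k - 1 - l - n := by ring
  rw [e1, e2]
  have p1 := rho_pos hε false (l + 1)
  have p2 := rho_pos hε true (4 ^ k - 1 - l - n)
  split_ifs with h
  · have e3 : rho ε true (4 ^ k - 1 - l) = ε := by
      simp only [rho]; rw [if_neg (by omega)]
    have e4 : rho ε false l = 1 := by
      simp only [rho]; rw [if_neg (by omega)]
    rw [e3, e4]
    field_simp
  · field_simp
    ring

lemma Om_nonneg {ε : ℝ} (hε : 0 < ε) (n k : ℕ) (l : ℤ) : 0 ≤ Om ε n k l := by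
  unfold Om
  have p1 := rho_pos hε false l
  have p2 := rho_pos hε true (4 ^ k - n - l)
  positivity

lemma Om_le {ε : ℝ} (hε : 0 < ε) (hε1 : ε ≤ 1) (n k : ℕ) (l : ℤ) :
    (4 ^ k : ℝ)⁻¹ * Om ε n k l ≤ if n ≤ 4 ^ k then (n : ℝ) * (4 ^ k : ℝ)⁻¹ else ε := by
  have p1 := rho_pos hε false l
  have p2 := rho_pos hε true (4 ^ k - n - l)
  have q1 := rho_le hε1 false l
  have q2 := le_rho hε1 true (4 ^ k - n - l)
  have hr : ε / rho ε true (4 ^ k - n - l) ≤ 1 := (div_le_one p2).mpr q2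
  have hr0 : 0 ≤ ε / rho ε true (4 ^ k - n - l) := by positivity
  have hE : Om ε n k l = (ε / rho ε true (4 ^ k - n - l)) * rho ε false l * NN n k l := by
    unfold Om; field_simp
  have h4 : (0 : ℝ) < 4 ^ k := by positivity
  split_ifs with h
  · have : Om ε n k l ≤ n := by
      rw [hE]
      have h1 : (NN n k l : ℝ) ≤ n := by exact_mod_cast NN_le n k l
      calc (ε / rho ε true (4 ^ k - n - l)) * rho ε false l * NN n k l ≤ 1 * 1 * n := by
            gcongr
        _ = n := by ring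
    rw [mul_comm]
    gcongr
  · by_cases hN : NN n k l = 0
    · rw [hE, hN]; simp; exact hε.le
    · obtain ⟨s, hs1, hs2, hs3⟩ := NN_pos hN
      have h1 : (NN n k l : ℝ) ≤ 4 ^ k := by exact_mod_cast NN_le' n k l
      have hn : (4 ^ k : ℤ) < n := by exact_mod_cast not_le.mp h
      have hprod : (ε / rho ε true (4 ^ k - n - l)) * rho ε false l ≤ ε := by
        by_cases hl : l < 0
        · have e : rho ε false l = ε := by simp only [rho]; rw [if_pos hl]
          rw [e]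
          calc (ε / rho ε true (4 ^ k - n - l)) * ε ≤ 1 * ε := by gcongr
            _ = ε := one_mul _
        · have e : rho ε true (4 ^ k - n - l) = 1 := by simp only [rho]; rw [if_pos (by omega)]
          rw [e, div_one]
          calc ε * rho ε false l ≤ ε * 1 := by gcongr
            _ = ε := mul_one _
      have hpos : 0 ≤ (ε / rho ε true (4 ^ k - n - l)) * rho ε false l := by positivity
      rw [hE]
      calc (4 ^ k : ℝ)⁻¹ * ((ε / rho ε true (4 ^ k - n - l)) * rho ε false l * NN n k l)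
          ≤ (4 ^ k : ℝ)⁻¹ * (ε * 4 ^ k) := by gcongr
        _ = ε := by field_simp

lemma sum_bound (n : ℕ) (ε : ℝ) (hε : 0 ≤ ε) (m : ℕ) :
    ∑ k ∈ Icc 1 m, (if n ≤ 4 ^ k then (n : ℝ) * (4 ^ k : ℝ)⁻¹ else ε) ≤ 4 / 3 + m * ε := by
  have key : ∀ m : ℕ, ∑ k ∈ Icc 1 m, (if n ≤ 4 ^ k then (n : ℝ) * (4 ^ k : ℝ)⁻¹ else 0) ≤
      if n ≤ 4 ^ m then 4 / 3 - (n : ℝ) * (4 ^ m : ℝ)⁻¹ / 3 else 0 := by
    intro m
    induction m with
    | zero =>
      simp only [Icc_eq_empty (show ¬ (1 ≤ 0) by norm_num), sum_empty]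
      split_ifs with h
      · have : (n : ℝ) ≤ 1 := by
          have : n ≤ 1 := by simpa using h
          exact_mod_cast this
        simp
        linarith
      · exact le_rfl
    | succ m ih =>
      rw [sum_Icc_succ_top (by omega)]
      have h4 : (0 : ℝ) < 4 ^ m := by positivity
      have e : ((4 : ℝ) ^ (m + 1))⁻¹ = (4 ^ m : ℝ)⁻¹ / 4 := by rw [pow_succ]; field_simp
      by_cases h1 : n ≤ 4 ^ m
      · have h2 : n ≤ 4 ^ (m + 1) := h1.trans (Nat.pow_le_pow_right (by norm_num) (by omega))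
        rw [if_pos h1] at ih
        rw [if_pos h2, if_pos h2, e]
        linarith
      · rw [if_neg h1] at ih
        by_cases h2 : n ≤ 4 ^ (m + 1)
        · rw [if_pos h2, if_pos h2]
          have h3 : (n : ℝ) * ((4 : ℝ) ^ (m + 1))⁻¹ ≤ 1 := by
            rw [← div_eq_mul_inv, div_le_one (by positivity)]
            exact_mod_cast h2
          linarith
        · rw [if_neg h2, if_neg h2]
          linarith
  have h1 : ∑ k ∈ Icc 1 m, (if n ≤ 4 ^ k then (n : ℝ) * (4 ^ k : ℝ)⁻¹ else ε) ≤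
      ∑ k ∈ Icc 1 m, ((if n ≤ 4 ^ k then (n : ℝ) * (4 ^ k : ℝ)⁻¹ else 0) + ε) := by
    refine sum_le_sum fun k _ => ?_
    split_ifs <;> linarith
  rw [sum_add_distrib, sum_const, Nat.card_Icc, nsmul_eq_mul] at h1
  have h2 := key m
  have h3 : (if n ≤ 4 ^ m then 4 / 3 - (n : ℝ) * (4 ^ m : ℝ)⁻¹ / 3 else 0) ≤ 4 / 3 := by
    split_ifs
    · have : 0 ≤ (n : ℝ) * (4 ^ m : ℝ)⁻¹ / 3 := by positivity
      linarith
    · norm_num
  simp only [Nat.add_sub_cancel] at h1
  linarith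

/-- diagonal part -/
lemma exists_B {ε : ℝ} (hε : 0 < ε) (hε1 : ε ≤ 1) (n : ℕ) :
    ∃ V : KK →L[ℂ] KK, (∀ x i, V x (true, i) = ((rho ε true i / rho ε true (i - n) : ℝ) : ℂ) * x (true, i - n)) ∧
      (∀ x i, V x (false, i) = ((rho ε false i / rho ε false (i + n) : ℝ) : ℂ) * x (false, i + n)) ∧ ‖V‖ ≤ 1 := by
  obtain ⟨V, hV1, hV2⟩ := exists_op (ι := Bool × ℤ) (E := ℂ)
    (fun p => (p.1, if p.1 then p.2 - n else p.2 + n))
    (by
      rintro ⟨b, i⟩ ⟨b', i'⟩ h
      simp only [Prod.mk.injEq] at h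
      obtain ⟨h1, h2⟩ := h
      subst h1
      cases b <;> simp at h2 <;> simp [h2])
    (fun p => ((rho ε p.1 p.2 / rho ε p.1 (if p.1 then p.2 - n else p.2 + n) : ℝ) : ℂ) • ContinuousLinearMap.id ℂ ℂ)
    1 zero_le_one
    (by
      rintro ⟨b, i⟩
      rw [norm_smul]
      refine (mul_le_of_le_one_right (norm_nonneg _) ContinuousLinearMap.norm_id_le).trans ?_
      rw [Complex.norm_real, Real.norm_eq_abs, abs_of_pos (div_pos (rho_pos hε _ _) (rho_pos hε _ _)),
        div_le_one (rho_pos hε _ _)]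
      cases b
      · simp only [Bool.false_eq_true, if_false]
        exact rho_false_mono hε1 (by omega)
      · simp only [if_true]
        exact rho_true_anti hε1 (by omega))
  refine ⟨V, fun x i => ?_, fun x i => ?_, hV2⟩
  · rw [hV1]; simp
  · rw [hV1]; simp

/-- off-diagonal part -/
lemma exists_V {ε : ℝ} (hε : 0 < ε) (hε1 : ε ≤ 1) (n k : ℕ) :
    ∃ V : KK →L[ℂ] KK, (∀ x i, V x (true, i) = 0) ∧
      (∀ x l, V x (false, l) = (((4 ^ k : ℝ)⁻¹ * Om ε n k l : ℝ) : ℂ) * x (true, 4 ^ k - n - l)) ∧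
      ‖V‖ ≤ if n ≤ 4 ^ k then (n : ℝ) * (4 ^ k : ℝ)⁻¹ else ε := by
  obtain ⟨V, hV1, hV2⟩ := exists_op (ι := Bool × ℤ) (E := ℂ)
    (fun p => (!p.1, 4 ^ k - n - p.2))
    (by
      rintro ⟨b, i⟩ ⟨b', i'⟩ h
      simp only [Prod.mk.injEq] at h
      obtain ⟨h1, h2⟩ := h
      have : b = b' := by simpa using h1
      subst this
      have : i = i' := by omega
      rw [this])
    (fun p => (((if p.1 then 0 else (4 ^ k : ℝ)⁻¹ * Om ε n k p.2) : ℝ) : ℂ) • ContinuousLinearMap.id ℂ ℂ)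
    (if n ≤ 4 ^ k then (n : ℝ) * (4 ^ k : ℝ)⁻¹ else ε) (by split_ifs <;> positivity)
    (by
      rintro ⟨b, i⟩
      rw [norm_smul]
      refine (mul_le_of_le_one_right (norm_nonneg _) ContinuousLinearMap.norm_id_le).trans ?_
      rw [Complex.norm_real, Real.norm_eq_abs]
      cases b
      · simp only [Bool.false_eq_true, if_false]
        rw [abs_of_nonneg (mul_nonneg (by positivity) (Om_nonneg hε _ _ _))]
        exact Om_le hε hε1 n k i
      · simp only [if_true, abs_zero]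
        split_ifs <;> positivity)
  refine ⟨V, fun x i => ?_, fun x i => ?_, hV2⟩
  · rw [hV1]; simp
  · rw [hV1]; simp

/-- the row operator -/
lemma exists_row {ε : ℝ} (hε : 0 < ε) (hε1 : ε ≤ 1) (m : ℕ) :
    ∃ T : KK →L[ℂ] KK, ∀ n : ℕ,
      (∀ x i, (T ^ n) x (true, i) = ((rho ε true i / rho ε true (i - n) : ℝ) : ℂ) * x (true, i - n)) ∧
      (∀ x l, (T ^ n) x (false, l) = ((rho ε false l / rho ε false (l + n) : ℝ) : ℂ) * x (false, l + n) +
        ∑ k ∈ Icc 1 m, (((4 ^ k : ℝ)⁻¹ * Om ε n k l : ℝ) : ℂ) * x (true, 4 ^ k - n - l)) ∧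
      ‖T ^ n‖ ≤ 1 + (4 / 3 + m * ε) := by
  choose B hB1 hB2 hB3 using fun n => exists_B hε hε1 n
  choose V hV1 hV2 hV3 using fun n k => exists_V hε hε1 n k
  set W : ℕ → KK →L[ℂ] KK := fun n => B n + ∑ k ∈ Icc 1 m, V n k with hW
  have hWt : ∀ n x i, W n x (true, i) = ((rho ε true i / rho ε true (i - n) : ℝ) : ℂ) * x (true, i - n) := by
    intro n x i
    simp only [hW, add_apply, _root_.sum_apply, lp.coeFn_add, Pi.add_apply,
      hB1, lp.coeFn_sum, Finset.sum_apply, hV1, sum_const_zero, add_zero]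
  have hWf : ∀ n x l, W n x (false, l) = ((rho ε false l / rho ε false (l + n) : ℝ) : ℂ) * x (false, l + n) +
        ∑ k ∈ Icc 1 m, (((4 ^ k : ℝ)⁻¹ * Om ε n k l : ℝ) : ℂ) * x (true, 4 ^ k - n - l) := by
    intro n x l
    simp only [hW, add_apply, _root_.sum_apply, lp.coeFn_add, Pi.add_apply,
      hB2, lp.coeFn_sum, Finset.sum_apply, hV2]
  have hWn : ∀ n, ‖W n‖ ≤ 1 + (4 / 3 + m * ε) := by
    intro n
    refine (norm_add_le _ _).trans (add_le_add (hB3 n) ?_)
    refine (norm_sum_le _ _).trans ((sum_le_sum fun k _ => hV3 n k).trans (sum_bound n ε hε.le m))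
  have hpow : ∀ n, (W 1) ^ n = W n := by
    intro n
    induction n with
    | zero =>
      ext x p
      obtain ⟨b, i⟩ := p
      cases b
      · rw [pow_zero, one_apply_eq_self, hWf]
        have h1 := rho_pos hε false i
        simp [Om_zero, h1.ne']
      · rw [pow_zero, one_apply_eq_self, hWt]
        have h1 := rho_pos hε true i
        simp [h1.ne']
    | succ n ih =>
      ext x p
      obtain ⟨b, i⟩ := p
      rw [pow_succ', ih, mul_apply_eq_comp]
      cases b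
      · rw [hWf 1, hWf (n + 1), hWf n]
        have h1 := (rho_pos hε false (i + 1)).ne'
        have h2 := (rho_pos hε false (i + ((n + 1 : ℕ) : ℤ))).ne'
        have e1 : i + ((1 : ℕ) : ℤ) + n = i + ((n + 1 : ℕ) : ℤ) := by push_cast; ring
        have e2 : i + ((1 : ℕ) : ℤ) = i + 1 := by push_cast; ring
        rw [e1, e2, mul_add, add_assoc]
        congr 1
        · rw [← mul_assoc, ← Complex.ofReal_mul]
          congr 2
          field_simp
        · rw [mul_sum, ← sum_add_distrib]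
          refine sum_congr rfl fun k _ => ?_
          rw [hWt n]
          have e3 : (4 : ℤ) ^ k - ((1 : ℕ) : ℤ) - i - n = 4 ^ k - ((n + 1 : ℕ) : ℤ) - i := by push_cast; ring
          have e4 : (4 : ℤ) ^ k - n - (i + 1) = 4 ^ k - ((n + 1 : ℕ) : ℤ) - i := by push_cast; ring
          rw [e3, e4, ← mul_assoc, ← mul_assoc, ← add_mul]
          congr 1
          rw [← Complex.ofReal_mul, ← Complex.ofReal_mul, ← Complex.ofReal_add]
          congr 1
          rw [Om_succ hε n k i, Om_succ hε 0 k i, Om_zero]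
          have e5 : (4 : ℤ) ^ k - 1 - i - ((0 : ℕ) : ℤ) = 4 ^ k - 1 - i := by push_cast; ring
          have e6 : (4 : ℤ) ^ k - ((1 : ℕ) : ℤ) - i = 4 ^ k - 1 - i := by push_cast; ring
          have e7 : (4 : ℤ) ^ k - ((n + 1 : ℕ) : ℤ) - i = 4 ^ k - 1 - i - n := by push_cast; ring
          rw [e5, e6, e7]
          have h3 := (rho_pos hε true (4 ^ k - 1 - i)).ne'
          split_ifs
          · field_simp
            ring
          · field_simp
            ring
      · rw [hWt 1, hWt n, hWt (n + 1)]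
        have e1 : i - ((1 : ℕ) : ℤ) - n = i - ((n + 1 : ℕ) : ℤ) := by push_cast; ring
        rw [e1, ← mul_assoc, ← Complex.ofReal_mul]
        congr 2
        have h1 := (rho_pos hε true (i - ((1 : ℕ) : ℤ))).ne'
        have h2 := (rho_pos hε true (i - ((n + 1 : ℕ) : ℤ))).ne'
        field_simp
  refine ⟨W 1, fun n => ?_⟩
  rw [hpow n]
  exact ⟨hWt n, hWf n, hWn n⟩

end Pool.Agent.Ebd05c
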