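import Pool.Agent.Ebd05c.Toep
import Pool.Agent.Ebd05c.Row

set_option autoImplicit false

open Finset
open scoped InnerProductSpace ENNReal

namespace Pool.Agent.Ebd05c

/-- the Hilbert space -/
noncomputable abbrev HH : Type := lp (fun _ : ℕ => KK) 2

/-- barrier size -/
noncomputable def ee (m : ℕ) : ℝ := 1 / ((m : ℝ) + 1)

lemma ee_pos (m : ℕ) : 0 < ee m := by unfold ee; positivity

lemma ee_le (m : ℕ) : ee m ≤ 1 := by
  unfold ee
  rw [div_le_one (by positivity)]
  have : (0 : ℝ) ≤ m := by positivity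
  linarith

lemma exists_TT : ∃ (R : ℕ → KK →L[ℂ] KK) (T : HH →L[ℂ] HH),
    (∀ (m n : ℕ) (x : KK) (i : ℤ), (R m ^ n) x (true, i) =
      ((rho (ee m) true i / rho (ee m) true (i - n) : ℝ) : ℂ) * x (true, i - n)) ∧
    (∀ (m n : ℕ) (x : KK) (l : ℤ), (R m ^ n) x (false, l) =
      ((rho (ee m) false l / rho (ee m) false (l + n) : ℝ) : ℂ) * x (false, l + n) +
        ∑ k ∈ Icc 1 m, (((4 ^ k : ℝ)⁻¹ * Om (ee m) n k l : ℝ) : ℂ) * x (true, 4 ^ k - n - l)) ∧
    (∀ (n : ℕ) (x : HH) (m : ℕ), (T ^ n) x m = (R m ^ n) (x m)) ∧ (∀ n, ‖T ^ n‖ ≤ 4) := by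
  choose R hR using fun m : ℕ => exists_row (ee_pos m) (ee_le m) m
  have hb : ∀ m n, ‖R m ^ n‖ ≤ 4 := by
    intro m n
    refine (hR m n).2.2.trans ?_
    have : (m : ℝ) * ee m ≤ 1 := by
      unfold ee
      rw [mul_one_div, div_le_one (by positivity)]
      linarith
    linarith
  choose U hU1 hU2 using fun n : ℕ => exists_op (ι := ℕ) (E := KK) id Function.injective_id (fun m => R m ^ n) 4
    (by norm_num) (fun m => hb m n)
  have hpow : ∀ n, (U 1) ^ n = U n := by
    intro n
    induction n with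
    | zero =>
      ext1 x
      refine lp.ext (funext fun m => ?_)
      rw [hU1]
      simp
    | succ n ih =>
      ext1 x
      refine lp.ext (funext fun m => ?_)
      rw [pow_succ', ih, mul_apply_eq_comp, hU1, hU1, pow_one, hU1, pow_succ', mul_apply_eq_comp]
      rfl
  refine ⟨R, U 1, fun m n => (hR m n).1, fun m n => (hR m n).2.1, fun n x m => ?_, fun n => ?_⟩
  · rw [hpow, hU1]; rfl
  · rw [hpow]; exact hU2 n

lemma norm_inner_C (a b : ℂ) : ‖⟪a, b⟫_ℂ‖ = ‖a‖ * ‖b‖ := by
  rw [RCLike.inner_apply, norm_mul, RCLike.norm_conj, mul_comm]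

theorem not_similar : ∃ T : HH →L[ℂ] HH, (∀ n : ℕ, ‖T ^ n‖ ≤ 4) ∧
    (∀ h : HH, h ≠ 0 → ∃ δ : ℝ, 0 < δ ∧ ∀ n : ℕ, δ ≤ ‖(T ^ n) h‖) ∧
    (∀ h : HH, h ≠ 0 → ∃ δ : ℝ, 0 < δ ∧ ∀ n : ℕ, δ ≤ ‖((ContinuousLinearMap.adjoint T) ^ n) h‖) ∧
    ∀ S : HH ≃L[ℂ] HH, 1 < ‖(S : HH →L[ℂ] HH).comp (T.comp (S.symm : HH →L[ℂ] HH))‖ := by
  obtain ⟨R, T, hRt, hRf, hT, hTn⟩ := exists_TT
  have h2ne : (2 : ℝ≥0∞) ≠ 0 := by norm_num
  have hexists : ∀ h : HH, h ≠ 0 → ∃ (m : ℕ), (∃ i, h m (true, i) ≠ 0) ∨ (∃ i, h m (false, i) ≠ 0) := by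
    intro h hh
    by_contra hcon
    push Not at hcon
    apply hh
    refine lp.ext (funext fun m => ?_)
    refine lp.ext (funext fun p => ?_)
    obtain ⟨b, i⟩ := p
    cases b
    · simpa using (hcon m).2 i
    · simpa using (hcon m).1 i
  have hwt : ∀ m b (i j : ℤ), ee m ≤ rho (ee m) b i / rho (ee m) b j := by
    intro m b i j
    rw [le_div_iff₀ (rho_pos (ee_pos m) b j)]
    calc ee m * rho (ee m) b j ≤ ee m * 1 := by
          have := rho_le (ee_le m) b j
          have := (ee_pos m).le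
          gcongr
      _ = ee m := mul_one _
      _ ≤ rho (ee m) b i := le_rho (ee_le m) b i
  have hwt0 : ∀ m b (i j : ℤ), 0 < rho (ee m) b i / rho (ee m) b j := fun m b i j =>
    div_pos (rho_pos (ee_pos m) b i) (rho_pos (ee_pos m) b j)
  -- action on single rows
  have hsingle : ∀ n m (f : KK), (T ^ n) (lp.single 2 m f) = lp.single 2 m ((R m ^ n) f) := by
    intro n m f
    refine lp.ext (funext fun m' => ?_)
    rw [hT]
    by_cases h : m' = m
    · subst h
      rw [lp.single_apply_self, lp.single_apply_self]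
    · rw [lp.single_apply_ne _ _ _ h, lp.single_apply_ne _ _ _ h, map_zero]
  refine ⟨T, hTn, ?_, ?_, ?_⟩
  · intro h hh
    obtain ⟨m, hm⟩ := hexists h hh
    have hle : ∀ n b i, ‖(T ^ n) h m (b, i)‖ ≤ ‖(T ^ n) h‖ := fun n b i =>
      (lp.norm_apply_le_norm h2ne _ _).trans (lp.norm_apply_le_norm h2ne _ _)
    by_cases hA : ∃ i, h m (true, i) ≠ 0
    · obtain ⟨i, hi⟩ := hA
      refine ⟨ee m * ‖h m (true, i)‖, mul_pos (ee_pos m) (norm_pos_iff.mpr hi), fun n => ?_⟩
      refine le_trans ?_ (hle n true (i + n))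
      rw [hT, hRt, norm_mul, Complex.norm_real, Real.norm_eq_abs, abs_of_pos (hwt0 _ _ _ _), add_sub_cancel_right]
      exact mul_le_mul_of_nonneg_right (hwt _ _ _ _) (norm_nonneg _)
    · obtain ⟨i, hi⟩ := hm.resolve_left hA
      push Not at hA
      refine ⟨ee m * ‖h m (false, i)‖, mul_pos (ee_pos m) (norm_pos_iff.mpr hi), fun n => ?_⟩
      refine le_trans ?_ (hle n false (i - n))
      rw [hT, hRf]
      simp only [hA, mul_zero, sum_const_zero, add_zero]
      rw [norm_mul, Complex.norm_real, Real.norm_eq_abs, abs_of_pos (hwt0 _ _ _ _), sub_add_cancel]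
      exact mul_le_mul_of_nonneg_right (hwt _ _ _ _) (norm_nonneg _)
  · intro h hh
    obtain ⟨m, hm⟩ := hexists h hh
    have hadj : ∀ n, (ContinuousLinearMap.adjoint T) ^ n = ContinuousLinearMap.adjoint (T ^ n) := by
      intro n
      rw [← ContinuousLinearMap.star_eq_adjoint, ← ContinuousLinearMap.star_eq_adjoint, star_pow]
    have hle : ∀ n b i, ‖⟪(R m ^ n) (lp.single 2 (b, i) (1 : ℂ)), h m⟫_ℂ‖ ≤
        ‖((ContinuousLinearMap.adjoint T) ^ n) h‖ := by
      intro n b i
      set f : KK := lp.single 2 (b, i) (1 : ℂ) with hf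
      have hfn : ‖f‖ = 1 := by
        rw [hf, lp.norm_single (by norm_num)]; simp
      have hen : ‖(lp.single 2 m f : HH)‖ = 1 := by
        rw [lp.norm_single (by norm_num), hfn]
      have h1 : ⟪(R m ^ n) f, h m⟫_ℂ = ⟪(lp.single 2 m f : HH), ((ContinuousLinearMap.adjoint T) ^ n) h⟫_ℂ := by
        rw [hadj, ContinuousLinearMap.adjoint_inner_right, hsingle, lp.inner_single_left]
      rw [h1]
      calc ‖⟪(lp.single 2 m f : HH), ((ContinuousLinearMap.adjoint T) ^ n) h⟫_ℂ‖
          ≤ ‖(lp.single 2 m f : HH)‖ * ‖((ContinuousLinearMap.adjoint T) ^ n) h‖ := norm_inner_le_norm _ _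
        _ = ‖((ContinuousLinearMap.adjoint T) ^ n) h‖ := by rw [hen, one_mul]
    by_cases hA : ∃ i, h m (false, i) ≠ 0
    · obtain ⟨i, hi⟩ := hA
      refine ⟨ee m * ‖h m (false, i)‖, mul_pos (ee_pos m) (norm_pos_iff.mpr hi), fun n => ?_⟩
      refine le_trans ?_ (hle n false (i + n))
      have hz : ∀ j : ℤ, (lp.single 2 (false, i + (n : ℤ)) (1 : ℂ) : KK) (true, j) = 0 := by
        intro j
        rw [lp.single_apply_ne]
        simp
      rw [lp.inner_eq_tsum, tsum_eq_single (false, i)]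
      · rw [hRf, lp.single_apply_self]
        simp only [hz, mul_zero, sum_const_zero, add_zero, mul_one]
        rw [norm_inner_C, Complex.norm_real, Real.norm_eq_abs, abs_of_pos (hwt0 _ _ _ _)]
        exact mul_le_mul_of_nonneg_right (hwt _ _ _ _) (norm_nonneg _)
      · rintro ⟨b, j⟩ hp
        cases b
        · rw [hRf]
          have hj : j ≠ i := fun h => hp (by rw [h])
          have hne : (false, j + (n : ℤ)) ≠ (false, i + (n : ℤ)) := by
            intro h
            simp only [Prod.mk.injEq, true_and] at h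
            omega
          rw [lp.single_apply_ne _ _ _ hne]
          simp only [hz, mul_zero, sum_const_zero, add_zero]
          simp
        · rw [hRt, hz]
          simp
    · obtain ⟨i, hi⟩ := hm.resolve_right hA
      push Not at hA
      refine ⟨ee m * ‖h m (true, i)‖, mul_pos (ee_pos m) (norm_pos_iff.mpr hi), fun n => ?_⟩
      refine le_trans ?_ (hle n true (i - n))
      rw [lp.inner_eq_tsum, tsum_eq_single (true, i)]
      · rw [hRt, lp.single_apply_self, mul_one]
        rw [norm_inner_C, Complex.norm_real, Real.norm_eq_abs, abs_of_pos (hwt0 _ _ _ _)]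
        exact mul_le_mul_of_nonneg_right (hwt _ _ _ _) (norm_nonneg _)
      · rintro ⟨b, j⟩ hp
        cases b
        · rw [hA j]
          simp
        · rw [hRt]
          have hj : j ≠ i := fun h => hp (by rw [h])
          have hne : (true, j - (n : ℤ)) ≠ (true, i - (n : ℤ)) := by
            intro h
            simp only [Prod.mk.injEq, true_and] at h
            omega
          rw [lp.single_apply_ne _ _ _ hne]
          simp
  · intro S
    by_contra hcon
    push Not at hcon
    set A : HH →L[ℂ] HH := (S : HH →L[ℂ] HH).comp (T.comp (S.symm : HH →L[ℂ] HH)) with hA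
    have hAS : ∀ (n : ℕ) (x : HH), (A ^ n) (S x) = S ((T ^ n) x) := by
      intro n
      induction n with
      | zero => intro x; simp
      | succ n ih =>
        intro x
        rw [pow_succ, mul_apply_eq_comp]
        have : A (S x) = S (T x) := by simp [hA]
        rw [this, ih, pow_succ, mul_apply_eq_comp]
    -- constants
    set Kc : ℝ := ‖(S.symm : HH →L[ℂ] HH)‖ * (2 * ‖(S : HH →L[ℂ] HH)‖) with hKc
    obtain ⟨m, hm⟩ := exists_nat_gt (max (Kc ^ 2) 1)
    have hm1 : (1 : ℝ) < m := (le_max_right _ _).trans_lt hm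
    have hm2 : Kc ^ 2 < m := (le_max_left _ _).trans_lt hm
    have hmpos : (0 : ℝ) < m := by linarith
    set c : ℝ := 1 / Real.sqrt m with hc
    have hc2 : c ^ 2 = 1 / m := by rw [hc, div_pow, Real.sq_sqrt hmpos.le, one_pow]
    set f : KK := lp.single 2 (true, 0) (1 : ℂ) with hf
    have hfn : ‖f‖ = 1 := by
      rw [hf, lp.norm_single (by norm_num)]; simp
    set e : HH := lp.single 2 m f with he
    have hen : ‖e‖ = 1 := by
      rw [he, lp.norm_single (by norm_num), hfn]
    set y : HH := ∑ i ∈ range (4 ^ m + 1), (((PR c m).1 i : ℝ) : ℂ) • (T ^ i) e with hy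
    have hSy : S y = ∑ i ∈ range (4 ^ m + 1), (((PR c m).1 i : ℝ) : ℂ) • (A ^ i) (S e) := by
      rw [hy, map_sum]
      refine sum_congr rfl fun i _ => ?_
      rw [map_smul, hAS]
    have hb1 := RS_bound A hcon (S e) c m
    rw [← hSy, hc2] at hb1
    have hb2 : (1 + 1 / (m : ℝ)) ^ m ≤ 4 := by
      have h1 : 1 + 1 / (m : ℝ) ≤ Real.exp (1 / m) := by
        have := Real.add_one_le_exp (1 / (m : ℝ))
        linarith
      calc (1 + 1 / (m : ℝ)) ^ m ≤ (Real.exp (1 / m)) ^ m := by gcongr
        _ = Real.exp 1 := by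
            rw [← Real.exp_nat_mul]
            congr 1
            field_simp
        _ ≤ 4 := by
            have := Real.exp_one_lt_d9
            linarith
    have hSe : ‖S e‖ ≤ ‖(S : HH →L[ℂ] HH)‖ := by
      have := (S : HH →L[ℂ] HH).le_opNorm e
      rw [hen, mul_one] at this
      exact this
    have hb3 : ‖S y‖ ≤ 2 * ‖(S : HH →L[ℂ] HH)‖ := by
      refine le_of_sq_le_sq ?_ (by positivity)
      calc ‖S y‖ ^ 2 ≤ (1 + 1 / (m : ℝ)) ^ m * ‖S e‖ ^ 2 := hb1
        _ ≤ 4 * ‖(S : HH →L[ℂ] HH)‖ ^ 2 := by gcongr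
        _ = (2 * ‖(S : HH →L[ℂ] HH)‖) ^ 2 := by ring
    have hb4 : ‖y‖ ≤ Kc := by
      have h1 := (S.symm : HH →L[ℂ] HH).le_opNorm (S y)
      have h2 : (S.symm : HH →L[ℂ] HH) (S y) = y := S.symm_apply_apply y
      rw [h2] at h1
      exact h1.trans (by rw [hKc]; gcongr)
    -- lower bound
    have hcoord : ∀ i : ℕ, ((T ^ i) e) m (false, 0) = ((∑ k ∈ Icc 1 m, if i = 4 ^ k then (1 : ℝ) else 0 : ℝ) : ℂ) := by
      intro i
      rw [he, hsingle, lp.single_apply_self, hRf]
      have h1 : f (false, 0 + (i : ℤ)) = 0 := by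
        rw [hf, lp.single_apply_ne]; simp
      rw [h1, mul_zero, zero_add]
      push_cast
      refine sum_congr rfl fun k _ => ?_
      by_cases hik : i = 4 ^ k
      · rw [if_pos hik]
        have h2 : (4 : ℤ) ^ k - (i : ℤ) - 0 = 0 := by rw [hik]; push_cast; ring
        rw [h2, hf, lp.single_apply_self, mul_one]
        have h3 : Om (ee m) i k 0 = 4 ^ k := by
          unfold Om
          rw [h2]
          have h4 : rho (ee m) false 0 = 1 := by simp [rho]
          have h5 : rho (ee m) true 0 = ee m := by simp [rho]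
          have h6 : NN i k 0 = 4 ^ k := by
            unfold NN
            rw [hik, filter_true_of_mem]
            · simp
            · intro s hs
              rw [mem_range] at hs
              constructor
              · omega
              · rw [zero_add]; exact_mod_cast hs
          rw [h4, h5, h6]
          have := (ee_pos m).ne'
          field_simp
          push_cast
          ring
        rw [h3]
        push_cast
        field_simp
      · rw [if_neg hik]
        have h2 : (true, (4 : ℤ) ^ k - (i : ℤ) - 0) ≠ (true, 0) := by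
          intro h
          simp only [Prod.mk.injEq, true_and] at h
          apply hik
          have : (i : ℤ) = ((4 ^ k : ℕ) : ℤ) := by push_cast; linarith
          exact_mod_cast this
        rw [hf, lp.single_apply_ne _ _ _ h2, mul_zero]
        simp
    have hyc : y m (false, 0) = ((m * c : ℝ) : ℂ) := by
      rw [hy, lp.coeFn_sum, Finset.sum_apply, lp.coeFn_sum, Finset.sum_apply]
      have h1 : ∀ i ∈ range (4 ^ m + 1), ((((PR c m).1 i : ℝ) : ℂ) • (T ^ i) e : HH) m (false, 0) =
          ((∑ k ∈ Icc 1 m, if i = 4 ^ k then (PR c m).1 i else 0 : ℝ) : ℂ) := by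
        intro i _
        rw [lp.coeFn_smul, Pi.smul_apply, lp.coeFn_smul, Pi.smul_apply, hcoord, smul_eq_mul, ← Complex.ofReal_mul,
          mul_sum]
        congr 1
        refine sum_congr rfl fun k _ => ?_
        split_ifs <;> simp
      rw [sum_congr rfl h1, ← Complex.ofReal_sum]
      congr 1
      rw [sum_comm]
      have h2 : ∀ k ∈ Icc 1 m, (∑ i ∈ range (4 ^ m + 1), if i = 4 ^ k then (PR c m).1 i else 0) = c := by
        intro k hk
        rw [mem_Icc] at hk
        rw [sum_ite_eq' , if_pos]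
        · obtain ⟨j, rfl⟩ : ∃ j, k = j + 1 := ⟨k - 1, by omega⟩
          exact PR_coeff c m j (by omega)
        · rw [mem_range]
          have : 4 ^ k ≤ 4 ^ m := Nat.pow_le_pow_right (by norm_num) hk.2
          omega
      rw [sum_congr rfl h2, sum_const, Nat.card_Icc, nsmul_eq_mul]
      simp
    have hlow : (m : ℝ) * c ≤ ‖y‖ := by
      have h1 : ‖y m (false, 0)‖ ≤ ‖y‖ :=
        (lp.norm_apply_le_norm h2ne _ _).trans (lp.norm_apply_le_norm h2ne _ _)
      rw [hyc, Complex.norm_real, Real.norm_eq_abs] at h1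
      exact (le_abs_self _).trans h1
    have hfin : (m : ℝ) = ((m : ℝ) * c) ^ 2 := by
      rw [mul_pow, hc2]; field_simp
    have hcpos : 0 ≤ (m : ℝ) * c := by rw [hc]; positivity
    have : ((m : ℝ) * c) ^ 2 ≤ Kc ^ 2 := by
      have := hlow.trans hb4
      gcongr
    linarith

end Pool.Agent.Ebd05c
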