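import Mathlib

set_option autoImplicit false

open Finset
open scoped InnerProductSpace LaurentPolynomial

namespace Pool.Agent.Ebd05c

variable {H : Type*} [NormedAddCommGroup H] [InnerProductSpace ℂ H]

/-- moments -/
noncomputable def gg (A : H →L[ℂ] H) (h : H) (d : ℤ) : ℝ := RCLike.re ⟪(A ^ d.natAbs) h, h⟫_ℂ

lemma gg_neg (A : H →L[ℂ] H) (h : H) (d : ℤ) : gg A h (-d) = gg A h d := by
  unfold gg; rw [Int.natAbs_neg]

/-- positivity of the Toeplitz form of a contraction -/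
lemma toeplitz (A : H →L[ℂ] H) (hA : ‖A‖ ≤ 1) (h : H) (L : ℕ) : ∀ a : ℕ → ℝ,
    ‖∑ i ∈ range L, ((a i : ℝ) : ℂ) • (A ^ i) h‖ ^ 2 ≤
      ∑ i ∈ range L, ∑ j ∈ range L, a i * a j * gg A h ((i : ℤ) - j) := by
  induction L with
  | zero => intro a; simp
  | succ L ih =>
    intro a
    set w := ∑ i ∈ range L, ((a (i + 1) : ℝ) : ℂ) • (A ^ i) h with hw
    have hw2 := ih (fun i => a (i + 1))
    rw [← hw] at hw2
    have e1 : ∑ i ∈ range (L + 1), ((a i : ℝ) : ℂ) • (A ^ i) h = ((a 0 : ℝ) : ℂ) • h + A w := by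
      rw [sum_range_succ', hw, map_sum, add_comm]
      congr 1
      refine sum_congr rfl fun i _ => ?_
      rw [map_smul, pow_succ']
      rfl
    have hAw : RCLike.re ⟪A w, h⟫_ℂ = ∑ i ∈ range L, a (i + 1) * gg A h ((i : ℤ) + 1) := by
      rw [hw, map_sum, sum_inner, map_sum]
      refine sum_congr rfl fun i _ => ?_
      rw [map_smul, inner_smul_left]
      unfold gg
      have : ((i : ℤ) + 1).natAbs = i + 1 := by omega
      rw [this, pow_succ', Complex.conj_ofReal]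
      simp
    have e2 : ∑ i ∈ range (L + 1), ∑ j ∈ range (L + 1), a i * a j * gg A h ((i : ℤ) - j) =
        a 0 ^ 2 * ‖h‖ ^ 2 + 2 * a 0 * RCLike.re ⟪A w, h⟫_ℂ +
          ∑ i ∈ range L, ∑ j ∈ range L, a (i + 1) * a (j + 1) * gg A h ((i : ℤ) - j) := by
      have g0 : gg A h 0 = ‖h‖ ^ 2 := by
        unfold gg
        simp [← inner_self_eq_norm_sq (𝕜 := ℂ)]
      rw [sum_range_succ']
      have h1 : ∀ i ∈ range L, ∑ j ∈ range (L + 1), a (i + 1) * a j * gg A h (((i + 1 : ℕ) : ℤ) - j) =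
          (∑ j ∈ range L, a (i + 1) * a (j + 1) * gg A h ((i : ℤ) - j)) + a (i + 1) * a 0 * gg A h ((i : ℤ) + 1) := by
        intro i _
        rw [sum_range_succ']
        congr 1
        refine sum_congr rfl fun j _ => ?_
        have : (((i + 1 : ℕ) : ℤ) - ((j + 1 : ℕ) : ℤ)) = (i : ℤ) - j := by push_cast; ring
        rw [this]
      rw [sum_congr rfl h1, sum_add_distrib, sum_range_succ']
      have h2 : ∑ j ∈ range L, a 0 * a (j + 1) * gg A h (((0 : ℕ) : ℤ) - ((j + 1 : ℕ) : ℤ)) =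
          ∑ j ∈ range L, a 0 * a (j + 1) * gg A h ((j : ℤ) + 1) := by
        refine sum_congr rfl fun j _ => ?_
        have : (((0 : ℕ) : ℤ) - ((j + 1 : ℕ) : ℤ)) = -((j : ℤ) + 1) := by push_cast; ring
        rw [this, gg_neg]
      rw [h2, hAw]
      have h3 : gg A h (((0 : ℕ) : ℤ) - ((0 : ℕ) : ℤ)) = ‖h‖ ^ 2 := by simpa using g0
      rw [h3]
      have h4 : ∑ i ∈ range L, a (i + 1) * a 0 * gg A h ((i : ℤ) + 1) =
          a 0 * ∑ i ∈ range L, a (i + 1) * gg A h ((i : ℤ) + 1) := by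
        rw [mul_sum]; exact sum_congr rfl fun i _ => by ring
      have h5 : ∑ i ∈ range L, a 0 * a (i + 1) * gg A h ((i : ℤ) + 1) =
          a 0 * ∑ i ∈ range L, a (i + 1) * gg A h ((i : ℤ) + 1) := by
        rw [mul_sum]; exact sum_congr rfl fun i _ => by ring
      rw [h4, h5]
      ring
    rw [e1, e2]
    have e3 : ‖((a 0 : ℝ) : ℂ) • h + A w‖ ^ 2 =
        a 0 ^ 2 * ‖h‖ ^ 2 + 2 * a 0 * RCLike.re ⟪A w, h⟫_ℂ + ‖A w‖ ^ 2 := by
      rw [@norm_add_sq ℂ]
      congr 1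
      congr 1
      · rw [norm_smul, mul_pow]
        simp
      · rw [inner_smul_left, Complex.conj_ofReal, inner_re_symm (𝕜 := ℂ) (A w) h]
        simp
        ring
    rw [e3]
    have h6 : ‖A w‖ ≤ ‖w‖ := by
      calc ‖A w‖ ≤ ‖A‖ * ‖w‖ := A.le_opNorm w
        _ ≤ 1 * ‖w‖ := by gcongr
        _ = ‖w‖ := one_mul _
    have h7 : ‖A w‖ ^ 2 ≤ ‖w‖ ^ 2 := by gcongr
    linarith

/-- Rudin-Shapiro like pair of coefficient sequences with lacunary shifts `4^(k+1)` -/
noncomputable def PR (c : ℝ) : ℕ → (ℕ → ℝ) × (ℕ → ℝ)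
  | 0 => (fun _ => 0, fun i => if i = 0 then 1 else 0)
  | k + 1 => (fun i => (PR c k).1 i + c * (if i ≤ 4 ^ (k + 1) then (PR c k).2 (4 ^ (k + 1) - i) else 0),
      fun i => (PR c k).2 i - c * (if i ≤ 4 ^ (k + 1) then (PR c k).1 (4 ^ (k + 1) - i) else 0))

lemma PR_supp (c : ℝ) (k : ℕ) : ∀ i, 4 ^ k < i → (PR c k).1 i = 0 ∧ (PR c k).2 i = 0 := by
  induction k with
  | zero =>
    intro i hi
    have : i ≠ 0 := by omega
    simp [PR, this]
  | succ k ih =>
    intro i hi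
    have h1 : 4 ^ k < i := by
      have : 4 ^ k ≤ 4 ^ (k + 1) := Nat.pow_le_pow_right (by norm_num) (by omega)
      omega
    obtain ⟨h2, h3⟩ := ih i h1
    simp [PR, h2, h3, not_le.mpr hi]

lemma PR_zero (c : ℝ) (k : ℕ) : (PR c k).2 0 = 1 := by
  induction k with
  | zero => simp [PR]
  | succ k ih =>
    have h1 : (PR c k).1 (4 ^ (k + 1)) = 0 :=
      (PR_supp c k _ (Nat.pow_lt_pow_right (by norm_num) (by omega))).1
    simp [PR, ih, h1]

lemma PR_coeff (c : ℝ) (k : ℕ) : ∀ j, j < k → (PR c k).1 (4 ^ (j + 1)) = c := by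
  induction k with
  | zero => intro j hj; omega
  | succ k ih =>
    intro j hj
    have hle : 4 ^ (j + 1) ≤ 4 ^ (k + 1) := Nat.pow_le_pow_right (by norm_num) (by omega)
    rcases Nat.lt_succ_iff_lt_or_eq.mp hj with h | h
    · have h1 := ih j h
      have h2 : (PR c k).2 (4 ^ (k + 1) - 4 ^ (j + 1)) = 0 := by
        refine (PR_supp c k _ ?_).2
        have h3 : 4 ^ (j + 1) ≤ 4 ^ k := Nat.pow_le_pow_right (by norm_num) (by omega)
        have h4 : 4 ^ (k + 1) = 4 * 4 ^ k := by rw [pow_succ]; ring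
        have h5 : 0 < 4 ^ k := by positivity
        omega
      simp [PR, h1, hle, h2]
    · subst h
      have h1 : (PR c j).1 (4 ^ (j + 1)) = 0 :=
        (PR_supp c j _ (Nat.pow_lt_pow_right (by norm_num) (by omega))).1
      simp [PR, h1, PR_zero]

/-- the Laurent polynomial of a sequence -/
noncomputable def SS (a : ℕ → ℝ) (L : ℕ) : ℝ[T;T⁻¹] :=
  ∑ i ∈ range L, LaurentPolynomial.C (a i) * LaurentPolynomial.T (i : ℤ)

lemma SS_ext (a : ℕ → ℝ) (L L' : ℕ) (h : L ≤ L') (ha : ∀ i, L ≤ i → a i = 0) : SS a L' = SS a L := by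
  unfold SS
  symm
  refine sum_subset (range_subset_range.mpr h) fun i _ hi => ?_
  rw [ha i (by simpa using hi)]
  simp

lemma SS_refl (a : ℕ → ℝ) (n : ℕ) :
    SS (fun i => if i ≤ n then a (n - i) else 0) (n + 1) =
      LaurentPolynomial.T (n : ℤ) * LaurentPolynomial.invert (SS a (n + 1)) := by
  unfold SS
  rw [map_sum, mul_sum, ← sum_range_reflect]
  refine sum_congr rfl fun i hi => ?_
  have hi' : i ≤ n := by simpa [Nat.lt_succ_iff] using hi
  have h1 : n + 1 - 1 - i = n - i := by omega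
  have h2 : n - i ≤ n := by omega
  have h3 : n - (n - i) = i := by omega
  rw [h1]
  simp only [if_pos h2, h3]
  rw [map_mul, LaurentPolynomial.invert_C, LaurentPolynomial.invert_T]
  have h4 : (((n - i : ℕ) : ℤ)) = (n : ℤ) + (-(i : ℤ)) := by push_cast [Nat.cast_sub hi']; ring
  rw [h4, LaurentPolynomial.T_add]
  ring

lemma SS_add (a b : ℕ → ℝ) (c : ℝ) (L : ℕ) :
    SS (fun i => a i + c * b i) L = SS a L + LaurentPolynomial.C c * SS b L := by
  unfold SS
  rw [mul_sum, ← sum_add_distrib]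
  refine sum_congr rfl fun i _ => ?_
  rw [map_add, map_mul]
  ring

lemma key_identity (c : ℝ) (k : ℕ) :
    SS (PR c k).1 (4 ^ k + 1) * LaurentPolynomial.invert (SS (PR c k).1 (4 ^ k + 1)) +
      SS (PR c k).2 (4 ^ k + 1) * LaurentPolynomial.invert (SS (PR c k).2 (4 ^ k + 1)) =
    LaurentPolynomial.C ((1 + c ^ 2) ^ k) := by
  induction k with
  | zero =>
    simp [SS, PR]
  | succ k ih =>
    have hlt : 4 ^ k + 1 ≤ 4 ^ (k + 1) + 1 := by
      have : 4 ^ k ≤ 4 ^ (k + 1) := Nat.pow_le_pow_right (by norm_num) (by omega)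
      omega
    have eP : SS (PR c (k + 1)).1 (4 ^ (k + 1) + 1) = SS (PR c k).1 (4 ^ k + 1) +
        LaurentPolynomial.C c * (LaurentPolynomial.T (((4 ^ (k + 1) : ℕ)) : ℤ) *
          LaurentPolynomial.invert (SS (PR c k).2 (4 ^ k + 1))) := by
      rw [← SS_ext (PR c k).1 _ _ hlt fun i hi => (PR_supp c k i (by omega)).1,
        ← SS_ext (PR c k).2 _ _ hlt fun i hi => (PR_supp c k i (by omega)).2, ← SS_refl, ← SS_add]
      rfl
    have eR : SS (PR c (k + 1)).2 (4 ^ (k + 1) + 1) = SS (PR c k).2 (4 ^ k + 1) +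
        LaurentPolynomial.C (-c) * (LaurentPolynomial.T (((4 ^ (k + 1) : ℕ)) : ℤ) *
          LaurentPolynomial.invert (SS (PR c k).1 (4 ^ k + 1))) := by
      rw [← SS_ext (PR c k).1 _ _ hlt fun i hi => (PR_supp c k i (by omega)).1,
        ← SS_ext (PR c k).2 _ _ hlt fun i hi => (PR_supp c k i (by omega)).2, ← SS_refl, ← SS_add]
      congr 1
      funext i
      simp only [PR]
      ring
    rw [eP, eR]
    set X := SS (PR c k).1 (4 ^ k + 1)
    set Y := SS (PR c k).2 (4 ^ k + 1)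
    set t : ℝ[T;T⁻¹] := LaurentPolynomial.T (((4 ^ (k + 1) : ℕ)) : ℤ) with ht
    set t' : ℝ[T;T⁻¹] := LaurentPolynomial.T (-(((4 ^ (k + 1) : ℕ)) : ℤ)) with ht'
    have htt : t * t' = 1 := by
      rw [ht, ht', ← LaurentPolynomial.T_add, add_neg_cancel, LaurentPolynomial.T_zero]
    have hit : LaurentPolynomial.invert t = t' := by rw [ht, LaurentPolynomial.invert_T]
    simp only [map_add, map_mul, LaurentPolynomial.invert_C, hit, map_neg]
    rw [LaurentPolynomial.involutive_invert X, LaurentPolynomial.involutive_invert Y]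
    have hC : LaurentPolynomial.C ((1 + c ^ 2) ^ (k + 1)) =
        (1 + LaurentPolynomial.C c ^ 2) * (LaurentPolynomial.C ((1 + c ^ 2) ^ k) : ℝ[T;T⁻¹]) := by
      rw [pow_succ, map_mul, map_add LaurentPolynomial.C 1, map_pow LaurentPolynomial.C c, map_one]; ring
    rw [hC, ← ih]
    linear_combination (LaurentPolynomial.C c ^ 2 * (X * LaurentPolynomial.invert X + Y * LaurentPolynomial.invert Y)) * htt

/-- the functional -/
noncomputable def tau (g : ℤ → ℝ) (f : ℝ[T;T⁻¹]) : ℝ := f.coeff.sum fun n a => a * g n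

lemma tau_add (g : ℤ → ℝ) (f f' : ℝ[T;T⁻¹]) : tau g (f + f') = tau g f + tau g f' := by
  unfold tau
  rw [AddMonoidAlgebra.coeff_add, Finsupp.sum_add_index']
  · intro; simp
  · intro a b c; ring

lemma tau_zero (g : ℤ → ℝ) : tau g 0 = 0 := by
  unfold tau; simp

lemma tau_sum (g : ℤ → ℝ) {ι : Type*} (s : Finset ι) (f : ι → ℝ[T;T⁻¹]) :
    tau g (∑ i ∈ s, f i) = ∑ i ∈ s, tau g (f i) := by
  classical
  induction s using Finset.induction_on with
  | empty => simp [tau_zero]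
  | insert a s ha ih => rw [sum_insert ha, sum_insert ha, tau_add, ih]

lemma tau_single (g : ℤ → ℝ) (a : ℝ) (n : ℤ) :
    tau g (LaurentPolynomial.C a * LaurentPolynomial.T n) = a * g n := by
  unfold tau
  rw [← LaurentPolynomial.single_eq_C_mul_T, AddMonoidAlgebra.coeff_single, Finsupp.sum_single_index]
  simp

lemma tau_SS (g : ℤ → ℝ) (a : ℕ → ℝ) (L : ℕ) :
    tau g (SS a L * LaurentPolynomial.invert (SS a L)) =
      ∑ i ∈ range L, ∑ j ∈ range L, a i * a j * g ((i : ℤ) - j) := by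
  unfold SS
  rw [map_sum, sum_mul_sum, tau_sum]
  refine sum_congr rfl fun i _ => ?_
  rw [tau_sum]
  refine sum_congr rfl fun j _ => ?_
  rw [map_mul, LaurentPolynomial.invert_C, LaurentPolynomial.invert_T]
  have : LaurentPolynomial.C (a i) * LaurentPolynomial.T (i : ℤ) * (LaurentPolynomial.C (a j) * LaurentPolynomial.T (-(j : ℤ))) =
      (LaurentPolynomial.C (a i * a j) * LaurentPolynomial.T ((i : ℤ) - j) : ℝ[T;T⁻¹]) := by
    rw [map_mul, LaurentPolynomial.T_sub]; ring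
  rw [this, tau_single]

/-- the von Neumann type inequality for our polynomials -/
lemma RS_bound (A : H →L[ℂ] H) (hA : ‖A‖ ≤ 1) (h : H) (c : ℝ) (k : ℕ) :
    ‖∑ i ∈ range (4 ^ k + 1), (((PR c k).1 i : ℝ) : ℂ) • (A ^ i) h‖ ^ 2 ≤ (1 + c ^ 2) ^ k * ‖h‖ ^ 2 := by
  have h1 := toeplitz A hA h (4 ^ k + 1) (PR c k).1
  have h2 := toeplitz A hA h (4 ^ k + 1) (PR c k).2
  rw [← tau_SS] at h1 h2
  have h3 := congrArg (tau (gg A h)) (key_identity c k)
  rw [tau_add] at h3
  have h4 : tau (gg A h) (LaurentPolynomial.C ((1 + c ^ 2) ^ k)) = (1 + c ^ 2) ^ k * ‖h‖ ^ 2 := by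
    have := tau_single (gg A h) ((1 + c ^ 2) ^ k) 0
    rw [LaurentPolynomial.T_zero, mul_one] at this
    rw [this]
    unfold gg
    simp [← inner_self_eq_norm_sq (𝕜 := ℂ)]
  rw [h4] at h3
  have h5 : 0 ≤ ‖∑ i ∈ range (4 ^ k + 1), (((PR c k).2 i : ℝ) : ℂ) • (A ^ i) h‖ ^ 2 := by positivity
  linarith

end Pool.Agent.Ebd05c
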